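import Pool.Agent.Helper8.TB.St
import Pool.Agent.Helper8.TB.M_Chart

set_option autoImplicit false

namespace Pool.Agent.Helper1.TB

open Pool.Helper8.TB MeasureTheory

theorem innerXself {n : ℕ} (q p : ℝ → ℝ) (e ν : W n) (hν : ‖ν‖ = 1) :
    (inner ℝ (X q p e ν) ν : ℝ) = hh q p e ν := by
  unfold X hh
  rw [inner_add_left, real_inner_smul_left, real_inner_smul_left, real_inner_self_eq_norm_sq, hν,
    real_inner_comm ν e]
  ring

theorem key (hSup : StSup) {m : ℕ} {τ ε : ℝ} {q q1 p r : ℝ → ℝ} (hD : Dat m τ ε q q1 p r)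
    {e : W (m + 1)} {J : W m →ₗᵢ[ℝ] W (m + 1)} {u : W (m + 1)} (he : ‖e‖ = 1) (hF : Frame J u)
    {ν ν' : W (m + 1)} (hν : ‖ν‖ = 1) (hν' : ‖ν'‖ = 1) (hp : 0 < (inner ℝ ν u : ℝ))
    (h : Jt J (X q p e ν) = Jt J (X q p e ν'))
    (hc : (inner ℝ (X q p e ν) u : ℝ) ≤ inner ℝ (X q p e ν') u) : ν' = ν := by
  obtain ⟨hP, -⟩ := hChart m J u hF
  have h1 := hP (X q p e ν)
  have h2 := hP (X q p e ν')
  rw [h, h2] at h1
  have h3 : X q p e ν' = X q p e ν +
      ((inner ℝ (X q p e ν') u : ℝ) - inner ℝ (X q p e ν) u) • u := by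
    rw [sub_smul]
    have h4 : X q p e ν' = X q p e ν - (inner ℝ (X q p e ν) u : ℝ) • u +
        (inner ℝ (X q p e ν') u : ℝ) • u := by
      rw [← h1]; abel
    rw [h4]
    have h5 : (inner ℝ (X q p e ν - (inner ℝ (X q p e ν) u : ℝ) • u +
        (inner ℝ (X q p e ν') u : ℝ) • u) u : ℝ) = inner ℝ (X q p e ν') u := by
      rw [← h4]
    rw [h5]
    abel
  obtain ⟨s1, s2⟩ := hSup (m + 1) m τ ε q q1 p r hD e ν' ν he hν' hν
  have h6 : (inner ℝ (X q p e ν') ν : ℝ) = hh q p e ν +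
      ((inner ℝ (X q p e ν') u : ℝ) - inner ℝ (X q p e ν) u) * inner ℝ ν u := by
    conv_lhs => rw [h3]
    rw [inner_add_left, real_inner_smul_left, innerXself q p e ν hν, real_inner_comm u ν]
  have h7 : ((inner ℝ (X q p e ν') u : ℝ) - inner ℝ (X q p e ν) u) * inner ℝ ν u = 0 := by
    apply le_antisymm
    · linarith
    · exact mul_nonneg (by linarith) hp.le
  apply s2
  rw [h6, h7, add_zero]

theorem hInj : StSup → StInj := by
  intro hSup m τ ε q q1 p r hD e J u he hF y hy y' hy' hyy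
  have hy1 : ‖y‖ < 1 := by simpa using hy
  have hy2 : ‖y'‖ < 1 := by simpa using hy'
  obtain ⟨-, -, -, -, hN, -⟩ := hChart m J u hF
  obtain ⟨a1, -, a3, a4⟩ := hN y hy1
  obtain ⟨b1, -, b3, b4⟩ := hN y' hy2
  have hyy' : Jt J (X q p e (nu J u y)) = Jt J (X q p e (nu J u y')) := hyy
  have hE : nu J u y' = nu J u y := by
    rcases le_total (inner ℝ (X q p e (nu J u y)) u : ℝ) (inner ℝ (X q p e (nu J u y')) u) with hc | hc
    · exact key hSup hD he hF a1 b1 a3 hyy' hc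
    · exact (key hSup hD he hF b1 a1 b3 hyy'.symm hc).symm
  rw [← a4, ← b4, hE]

end Pool.Agent.Helper1.TB
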